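import Pool.Agent.N922.PY.Stm

/-!
# PY/FINB: the final contradiction from the shape of `F` (helper907)
-/

set_option autoImplicit false
set_option linter.all false

open Polynomial
open scoped Classical

namespace Pool.Agent.N907.PY

open Pool.Agent.N922.PY

/-- Laurent series -/
abbrev LS : Type := LaurentSeries ℤ_[2]

/-! ### Divisibility in `ℤ_2` -/

theorem unit_iff (x : ℤ_[2]) : IsUnit x ↔ ¬ (2 : ℤ_[2]) ∣ x := by
  have h1 := PadicInt.not_isUnit_iff (z := x)
  have h2 := PadicInt.norm_lt_one_iff_dvd (p := 2) x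
  rw [show ((2 : ℕ) : ℤ_[2]) = 2 by norm_num] at h2
  rw [← h2, ← h1, not_not]

theorem toZ_zero_iff (x : ℤ_[2]) : PadicInt.toZMod (p := 2) x = 0 ↔ (2 : ℤ_[2]) ∣ x := by
  rw [← RingHom.mem_ker, PadicInt.ker_toZMod, PadicInt.maximalIdeal_eq_span_p,
    Ideal.mem_span_singleton]
  norm_num

/-! ### Coefficients of Laurent series -/

theorem coeff_two_pow (i : ℕ) (g : LS) (n : ℤ) : ((2 : LS) ^ i * g).coeff n = 2 ^ i * g.coeff n := by
  have h : (2 : LS) ^ i = HahnSeries.C (2 ^ i : ℤ_[2]) := by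
    rw [map_pow]
    congr 1
  rw [h, HahnSeries.C_mul_eq_smul, HahnSeries.coeff_smul, smul_eq_mul]

theorem coeff_C_mul' (r : ℤ_[2]) (g : LS) (n : ℤ) : (HahnSeries.C r * g).coeff n = r * g.coeff n := by
  rw [HahnSeries.C_mul_eq_smul, HahnSeries.coeff_smul, smul_eq_mul]

theorem coeff_C' (r : ℤ_[2]) (n : ℤ) : (HahnSeries.C r : LS).coeff n = if n = 0 then r else 0 := by
  rw [HahnSeries.C_apply]
  split_ifs with h
  · subst h
    exact HahnSeries.coeff_single_same _ _
  · exact HahnSeries.coeff_single_of_ne h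

/-- the image of a power series -/
noncomputable abbrev pw (P : PowerSeries ℤ_[2]) : LS := HahnSeries.ofPowerSeries ℤ ℤ_[2] P

theorem pw_neg (P : PowerSeries ℤ_[2]) {n : ℤ} (hn : n < 0) : (pw P).coeff n = 0 := by
  have := PowerSeries.coeff_coe (f := P) n
  rw [if_pos hn] at this
  exact this

theorem pw_zero (P : PowerSeries ℤ_[2]) : (pw P).coeff 0 = PowerSeries.constantCoeff P := by
  have := PowerSeries.coeff_coe (f := P) 0
  rw [if_neg (lt_irrefl _)] at this
  simpa using this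

theorem pw_nat (P : PowerSeries ℤ_[2]) (n : ℕ) : (pw P).coeff n = PowerSeries.coeff n P :=
  LaurentSeries.coeff_coe_powerSeries P n

/-- a Laurent series without polar part -/
theorem exists_pw (g : LS) (hg : ∀ n : ℤ, n < 0 → g.coeff n = 0) :
    ∃ P : PowerSeries ℤ_[2], g = pw P := by
  refine ⟨PowerSeries.mk fun k => g.coeff k, ?_⟩
  ext n
  rcases lt_or_ge n 0 with h | h
  · rw [hg n h, pw_neg _ h]
  · obtain ⟨k, rfl⟩ := Int.eq_ofNat_of_zero_le h
    rw [pw_nat, PowerSeries.coeff_mk]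

theorem coeff_shift (m : ℤ) (g : LS) (n : ℤ) :
    (HahnSeries.single m (1 : ℤ_[2]) * g).coeff n = g.coeff (n - m) := by
  rw [HahnSeries.coeff_single_mul, one_mul]

/-! ### Algebra -/

theorem qpow {R : Type} [CommRing R] (a b U : R) (k : ℕ) :
    (⟨U, 0⟩ : QuadraticAlgebra R a b) ^ k = ⟨U ^ k, 0⟩ := by
  induction k with
  | zero =>
    rw [pow_zero, pow_zero]
    rfl
  | succ k ih =>
    rw [pow_succ, ih]
    refine QuadraticAlgebra.ext ?_ ?_
    · simp only [QuadraticAlgebra.re_mul]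
      ring
    · simp only [QuadraticAlgebra.im_mul]
      ring

theorem cong_pow {A : Type} [CommRing A] (U p : A) (j : ℕ) :
    ∃ t, (U + 2 * p) ^ 2 ^ j = U ^ 2 ^ j + 2 ^ (j + 1) * t := by
  induction j with
  | zero => exact ⟨p, by ring⟩
  | succ j ih =>
    obtain ⟨t, ht⟩ := ih
    refine ⟨U ^ 2 ^ j * t + 2 ^ j * t ^ 2, ?_⟩
    rw [pow_succ 2 j, pow_mul, ht, pow_mul]
    ring

theorem two_pow_mul {R : Type} [CommRing R] (a b : R) (x : R) (k : ℕ) :
    (⟨2 ^ k * x, 0⟩ : QuadraticAlgebra R a b) = 2 ^ k * ⟨x, 0⟩ := by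
  have h2 : (2 : QuadraticAlgebra R a b) = ⟨2, 0⟩ := rfl
  rw [h2, qpow]
  refine QuadraticAlgebra.ext ?_ ?_
  · simp only [QuadraticAlgebra.re_mul]
    ring
  · simp only [QuadraticAlgebra.im_mul]
    ring

theorem two_mul_im {R : Type} [CommRing R] (a b : R) (x : R) :
    (⟨0, 2 * x⟩ : QuadraticAlgebra R a b) = 2 * ⟨0, x⟩ := by
  have h2 : (2 : QuadraticAlgebra R a b) = ⟨2, 0⟩ := rfl
  rw [h2]
  refine QuadraticAlgebra.ext ?_ ?_
  · simp only [QuadraticAlgebra.re_mul]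
    ring
  · simp only [QuadraticAlgebra.im_mul]
    ring

/-- the argument with Laurent series -/
theorem core (j : ℕ) (hj : 1 ≤ j) (P u : PowerSeries ℤ_[2]) (η r : ℤ_[2]) (H H' T : LS)
    (hη : IsUnit η) (hP : IsUnit (PowerSeries.constantCoeff P))
    (hu : PowerSeries.constantCoeff u = 1)
    (hE : (pw P + HahnSeries.C (2 ^ j * η) * HahnSeries.single (-1) 1) * H =
      pw u + 2 ^ (j + 1) * T) (hH : H = HahnSeries.C r + 2 ^ j * H') :
    ∃ c : ℤ_[2], IsUnit c ∧ ∀ n : ℤ, n < 0 →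
      (2 : ℤ_[2]) ∣ H'.coeff n + if n = -1 then c else 0 := by
  have hPu : IsUnit P := PowerSeries.isUnit_iff_constantCoeff.2 hP
  obtain ⟨Q, hQ⟩ := hPu.exists_right_inv
  have hQ' : pw P * pw Q = 1 := by
    rw [← map_mul, hQ, map_one]
  have hψ : PowerSeries.constantCoeff P * PowerSeries.constantCoeff Q = 1 := by
    rw [← map_mul, hQ, map_one]
  set ψ := PowerSeries.constantCoeff Q with hψdef
  have hψu : IsUnit ψ := IsUnit.of_mul_eq_one _ (by rw [mul_comm]; exact hψ)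
  -- multiply by the inverse
  have e1 : H = pw (u * Q) + 2 ^ j * (2 * T * pw Q -
      HahnSeries.C η * (HahnSeries.single (-1) 1 * (pw Q * H))) := by
    have h1 := congrArg (fun y => pw Q * y) hE
    beta_reduce at h1
    have h2 : HahnSeries.C (2 ^ j * η) = (2 : LS) ^ j * HahnSeries.C η := by
      rw [map_mul, map_pow]
      congr 2
    rw [h2] at h1
    have h3 : pw (u * Q) = pw u * pw Q := map_mul _ _ _
    rw [h3]
    linear_combination h1 - H * hQ'
  -- the constant is a unit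
  have hr : IsUnit r := by
    have c1 := congrArg (fun y : LS => y.coeff 0) e1
    have c2 := congrArg (fun y : LS => y.coeff 0) hH
    simp only [HahnSeries.coeff_add, coeff_two_pow] at c1 c2
    rw [pw_zero, map_mul, hu, one_mul] at c1
    rw [coeff_C', if_pos rfl] at c2
    rw [unit_iff]
    intro h2
    rw [unit_iff] at hψu
    apply hψu
    have h2j : (2 : ℤ_[2]) ∣ 2 ^ j := dvd_pow_self 2 (by omega)
    have : ψ = r + (2 ^ j * H'.coeff 0 - 2 ^ j * (2 * T * pw Q -
      HahnSeries.C η * (HahnSeries.single (-1) 1 * (pw Q * H))).coeff 0) := by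
      linear_combination c2 - c1
    rw [this]
    exact dvd_add h2 (dvd_sub (h2j.mul_right _) (h2j.mul_right _))
  refine ⟨η * r * ψ, (hη.mul hr).mul hψu, fun n hn => ?_⟩
  have e2 : H = pw (u * Q) + 2 ^ (j + 1) * (T * pw Q) -
      2 ^ j * (HahnSeries.C (η * r) * (HahnSeries.single (-1) 1 * pw Q)) -
      2 ^ j * (2 ^ j * (HahnSeries.C η * (HahnSeries.single (-1) 1 * (pw Q * H')))) := by
    conv_lhs => rw [e1]
    conv_lhs => rw [hH]
    rw [map_mul HahnSeries.C η r]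
    ring
  have c1 := congrArg (fun y : LS => y.coeff n) e2
  have c2 := congrArg (fun y : LS => y.coeff n) hH
  simp only [HahnSeries.coeff_add, HahnSeries.coeff_sub, coeff_two_pow, coeff_C_mul',
    coeff_shift] at c1 c2
  rw [pw_neg _ hn] at c1
  rw [coeff_C', if_neg hn.ne] at c2
  have h3 : (pw Q).coeff (n - -1) = if n = -1 then ψ else 0 := by
    split_ifs with h
    · subst h
      exact pw_zero Q
    · exact pw_neg _ (by omega)
  rw [h3] at c1
  set Y := (HahnSeries.C η * (HahnSeries.single (-1) 1 * (pw Q * H')) : LS).coeff n with hY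
  have h2j : (2 : ℤ_[2]) ^ j ≠ 0 := pow_ne_zero _ two_ne_zero
  have key : H'.coeff n + (if n = -1 then η * r * ψ else 0) =
      2 * (T * pw Q).coeff n - 2 ^ j * (η * (pw Q * H').coeff (n - -1)) := by
    apply mul_left_cancel₀ h2j
    have h4 : (if n = -1 then η * r * ψ else 0) = η * r * (if n = -1 then ψ else 0) := by
      split_ifs <;> simp
    rw [h4]
    rw [pow_succ] at c1
    linear_combination c1 - c2
  rw [key]
  have h2j' : (2 : ℤ_[2]) ∣ 2 ^ j := dvd_pow_self 2 (by omega)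
  exact dvd_sub (Dvd.intro _ rfl) (h2j'.mul_right _)

/-- the part FINB -/
theorem finb (h : S_ORD) : S_FINB := by
  intro f ι hf hf5 hι U j z η F hh p hU hj hη hz hE hi hr hlead hre him
  obtain ⟨o1, o2, o3, o4⟩ := h f ι hf hf5 hι
  set M : ℕ := 2 ^ (j + 1) * U.natDegree with hM
  -- the real part
  have hUm : (r2 U).Monic := hU.map _
  have hd1 : (r2 U ^ 2 ^ j).natDegree = 2 ^ j * U.natDegree := by
    rw [hUm.natDegree_pow, hU.natDegree_map]
  have hdeg : F.re.natDegree = 2 ^ j * U.natDegree := by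
    have h1 : (r2 F.re).natDegree ≤ F.re.natDegree := Polynomial.natDegree_map_le
    rw [hre, hd1] at h1
    have h2 : 2 ^ (j + 1) * U.natDegree = 2 * (2 ^ j * U.natDegree) := by ring
    omega
  have hMd : 2 * F.re.natDegree = M := by
    rw [hdeg, hM]
    ring
  have hodd : ¬ (2 : ℤ_[2]) ∣ F.re.leadingCoeff := by
    rw [← toZ_zero_iff]
    have h1 : (r2 F.re).coeff F.re.natDegree = PadicInt.toZMod (p := 2) F.re.leadingCoeff := by
      rw [Polynomial.coeff_map]
      rfl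
    rw [← h1, hre, hdeg, ← hd1]
    have h2 : (r2 U ^ 2 ^ j).coeff (r2 U ^ 2 ^ j).natDegree = 1 := (hUm.pow (2 ^ j)).coeff_natDegree
    rw [h2]
    exact one_ne_zero
  -- the imaginary part is even
  obtain ⟨b, hb⟩ : ∃ b : ℤ_[2][X], F.im = 2 * b := by
    have h1 : C (2 : ℤ_[2]) ∣ F.im := by
      rw [Polynomial.C_dvd_iff_dvd_coeff]
      intro i
      rw [← toZ_zero_iff]
      have h2 : (r2 F.im).coeff i = PadicInt.toZMod (p := 2) (F.im.coeff i) :=
        Polynomial.coeff_map _ _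
      rw [← h2, him, Polynomial.coeff_zero]
    obtain ⟨b, hb⟩ := h1
    exact ⟨b, by rw [hb]; rfl⟩
  have hF : F = (⟨F.re, 0⟩ : AA f) + ⟨0, F.im⟩ := by
    refine QuadraticAlgebra.ext ?_ ?_
    · simp
    · simp
  have hιF : ∀ n : ℤ, (ι F).coeff n = (ι ⟨F.re, 0⟩).coeff n + (ι ⟨0, F.im⟩).coeff n := by
    intro n
    conv_lhs => rw [hF, map_add]
    exact HahnSeries.coeff_add
  have hev : ∀ n : ℤ, (2 : ℤ_[2]) ∣ (ι ⟨0, F.im⟩).coeff n := by
    intro n
    rw [hb, two_mul_im, map_mul, map_ofNat]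
    have := coeff_two_pow 1 (ι ⟨0, b⟩) n
    rw [pow_one, pow_one] at this
    rw [this]
    exact Dvd.intro _ rfl
  have hMi : (2 * (F.im.natDegree : ℤ) + 5) = (M : ℤ) + 1 := by exact_mod_cast hi
  have hMr : (2 * (F.re.natDegree : ℤ)) = (M : ℤ) := by exact_mod_cast hMd
  obtain ⟨a1, a2⟩ := o1 F.re
  obtain ⟨b1, b2⟩ := o2 F.im
  rw [hMr] at a1 a2
  rw [hMi] at b1 b2
  -- the series of `F`
  set G : LS := HahnSeries.single (M : ℤ) (1 : ℤ_[2]) * ι F with hG
  have hGn : ∀ n : ℤ, G.coeff n = (ι ⟨F.re, 0⟩).coeff (n - M) + (ι ⟨0, F.im⟩).coeff (n - M) := by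
    intro n
    rw [hG, coeff_shift, hιF]
  set G' : LS := G - HahnSeries.C (2 ^ j * η) * HahnSeries.single (-1) 1 with hG'
  have hsing : ∀ n : ℤ, (HahnSeries.C (2 ^ j * η) * HahnSeries.single (-1) (1 : ℤ_[2]) : LS).coeff n =
      if n = -1 then 2 ^ j * η else 0 := by
    intro n
    rw [coeff_C_mul']
    split_ifs with h
    · subst h
      rw [HahnSeries.coeff_single_same, mul_one]
    · rw [HahnSeries.coeff_single_of_ne h, mul_zero]
  have hG'n : ∀ n : ℤ, n < 0 → G'.coeff n = 0 := by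
    intro n hn
    rw [hG', HahnSeries.coeff_sub, hsing, hGn, a2 _ (by omega)]
    split_ifs with h
    · subst h
      have e1 : (-1 : ℤ) - M = -((M : ℤ) + 1) := by ring
      rw [e1, b1, hlead]
      ring
    · rw [b2 _ (by omega)]
      ring
  obtain ⟨P, hP⟩ := exists_pw G' hG'n
  have hPu : IsUnit (PowerSeries.constantCoeff P) := by
    have h1 : G'.coeff 0 = PowerSeries.constantCoeff P := by
      rw [hP]
      exact pw_zero P
    rw [← h1, hG', HahnSeries.coeff_sub, hsing, if_neg (by norm_num), hGn, sub_zero,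
      show (0 : ℤ) - M = -(M : ℤ) by ring, a1, unit_iff]
    intro h2
    apply hodd
    have h3 := dvd_sub h2 (hev (-(M : ℤ)))
    rwa [add_sub_cancel_right] at h3
  -- the series of `U`
  obtain ⟨u1, u2⟩ := o1 (U ^ 2 ^ j)
  have hUd : (2 * ((U ^ 2 ^ j).natDegree : ℤ)) = (M : ℤ) := by
    have : 2 * (U ^ 2 ^ j).natDegree = M := by
      rw [hU.natDegree_pow, hM]
      ring
    exact_mod_cast this
  rw [hUd] at u1 u2
  rw [(hU.pow (2 ^ j)).leadingCoeff] at u1
  obtain ⟨u, hu⟩ := exists_pw (HahnSeries.single (M : ℤ) (1 : ℤ_[2]) * ι ⟨U ^ 2 ^ j, 0⟩)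
    (fun n hn => by rw [coeff_shift]; exact u2 _ (by omega))
  have hu1 : PowerSeries.constantCoeff u = 1 := by
    rw [← pw_zero, ← hu, coeff_shift, show (0 : ℤ) - M = -(M : ℤ) by ring]
    exact u1
  -- the congruence
  obtain ⟨t, ht⟩ := cong_pow (⟨U, 0⟩ : AA f) p j
  obtain ⟨z', hz'⟩ := hz
  have hzz : (⟨1 - C z * X, 0⟩ : AA f) = 1 + 2 ^ (j + 1) * ⟨-(C z' * X), 0⟩ := by
    rw [← two_pow_mul]
    have h1 : (1 : AA f) = ⟨1, 0⟩ := rfl
    rw [h1]
    refine QuadraticAlgebra.ext ?_ ?_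
    · simp only [QuadraticAlgebra.re_add]
      rw [hz', C_mul, C_pow]
      have : (C (2 : ℤ_[2]) : ℤ_[2][X]) = 2 := rfl
      rw [this]
      ring
    · simp
  obtain ⟨T, hT⟩ : ∃ T : AA f, F * hh = ⟨U ^ 2 ^ j, 0⟩ + 2 ^ (j + 1) * T := by
    rw [← hE, ht, hzz, qpow]
    refine ⟨t + ⟨U ^ 2 ^ j, 0⟩ * ⟨-(C z' * X), 0⟩ + 2 ^ (j + 1) * t * ⟨-(C z' * X), 0⟩, ?_⟩
    ring
  -- the equation of Laurent series
  have hEL : (pw P + HahnSeries.C (2 ^ j * η) * HahnSeries.single (-1) 1) * ι hh =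
      pw u + 2 ^ (j + 1) * (HahnSeries.single (M : ℤ) (1 : ℤ_[2]) * ι T) := by
    have h1 : pw P + HahnSeries.C (2 ^ j * η) * HahnSeries.single (-1) 1 = G := by
      rw [← hP, hG']
      ring
    rw [h1, hG, mul_assoc, ← map_mul, hT, map_add, map_mul, map_pow, map_ofNat, ← hu]
    ring
  -- the shape of `h`
  have hneg : ∀ n : ℤ, n < 0 → (2 : ℤ_[2]) ^ j ∣ (ι hh).coeff n := by
    intro n hn
    obtain ⟨Q, hQ⟩ := (PowerSeries.isUnit_iff_constantCoeff.2 hPu).exists_right_inv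
    have hQ' : pw P * pw Q = 1 := by
      rw [← map_mul, hQ, map_one]
    have h2 : (HahnSeries.C (2 ^ j * η) : LS) = (2 : LS) ^ j * HahnSeries.C η := by
      rw [map_mul, map_pow]
      congr 2
    have e1 : ι hh = pw (u * Q) + 2 ^ j * (2 * (HahnSeries.single (M : ℤ) (1 : ℤ_[2]) * ι T) * pw Q -
        HahnSeries.C η * (HahnSeries.single (-1) 1 * (pw Q * ι hh))) := by
      rw [h2] at hEL
      have h3 : pw (u * Q) = pw u * pw Q := map_mul _ _ _
      rw [h3]
      linear_combination pw Q * hEL - ι hh * hQ'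
    have c1 := congrArg (fun y : LS => y.coeff n) e1
    simp only [HahnSeries.coeff_add, coeff_two_pow] at c1
    rw [pw_neg _ hn, zero_add] at c1
    rw [c1]
    exact Dvd.intro _ rfl
  obtain ⟨r, h', hh'⟩ := o3 j hh hneg
  have hιh : ι hh = HahnSeries.C r + 2 ^ j * ι h' := by
    conv_lhs => rw [hh']
    rw [map_add, map_mul, map_pow, map_ofNat, hι.c]
  obtain ⟨c, hc, hcon⟩ := core j hj P u η r (ι hh) (ι h') _ hη hPu hu1 hEL hιh
  exact o4 h' c hc hcon

end Pool.Agent.N907.PY
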